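import Mathlib

set_option autoImplicit false

namespace Q117.FB

open SimpleGraph Finset

/-- `f(G)`: the largest number of vertices of an induced forest. -/
noncomputable def forestNum {V : Type} (G : SimpleGraph V) : ℕ :=
  sSup {k : ℕ | ∃ S : Finset V, (G.induce (S : Set V)).IsAcyclic ∧ S.card = k}

/-- `b(G)`: the largest number of vertices of an induced bipartite subgraph. -/
noncomputable def bipNum {V : Type} (G : SimpleGraph V) : ℕ :=
  sSup {k : ℕ | ∃ S : Finset V, (G.induce (S : Set V)).IsBipartite ∧ S.card = k}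

/-- `l(v)`: the independence number of the subgraph induced on the neighbourhood of `v`. -/
noncomputable def locInd {V : Type} (G : SimpleGraph V) (v : V) : ℕ :=
  (G.induce (G.neighborSet v)).indepNum

/-- The average of `l(v)` over all vertices. -/
noncomputable def avgLocInd {V : Type} [Fintype V] (G : SimpleGraph V) : ℝ :=
  (∑ v, (locInd G v : ℝ)) / (Fintype.card V : ℝ)

variable {V : Type} {G : SimpleGraph V}

lemma no_tri (h : G.IsAcyclic) {a b c : V} (hab : G.Adj a b) (hbc : G.Adj b c)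
    (hca : G.Adj c a) : False := by
  apply h (Walk.cons hab (Walk.cons hbc (Walk.cons hca Walk.nil)))
  rw [Walk.isCycle_def]
  simp [Walk.isTrail_def, hab.ne, hbc.ne, hca.ne, hab.ne', hca.ne']

lemma no_c4 (h : G.IsAcyclic) {a b c d : V} (hab : G.Adj a b) (hbc : G.Adj b c)
    (hcd : G.Adj c d) (hda : G.Adj d a) (hac : a ≠ c) (hbd : b ≠ d) : False := by
  apply h (Walk.cons hab (Walk.cons hbc (Walk.cons hcd (Walk.cons hda Walk.nil))))
  rw [Walk.isCycle_def]
  simp [Walk.isTrail_def, hab.ne, hbc.ne, hcd.ne, hda.ne, hab.ne', hda.ne', hac, hbd,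
    hac.symm]

lemma forestNum_le (k : ℕ) (h : ∀ S : Finset V, (G.induce (S : Set V)).IsAcyclic → S.card ≤ k) :
    forestNum G ≤ k := by
  apply csSup_le
  · refine ⟨0, ∅, ?_, rfl⟩
    have : IsEmpty ((∅ : Finset V) : Set V) := by simp
    intro v
    exact isEmptyElim v
  · rintro m ⟨S, hS, rfl⟩
    exact h S hS

lemma le_forestNum [Fintype V] (S : Finset V) (hS : (G.induce (S : Set V)).IsAcyclic) :
    S.card ≤ forestNum G := by
  apply le_csSup
  · refine ⟨Fintype.card V, ?_⟩
    rintro m ⟨T, _, rfl⟩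
    exact Finset.card_le_univ T
  · exact ⟨S, hS, rfl⟩

lemma le_bipNum [Fintype V] (S : Finset V) (hS : (G.induce (S : Set V)).IsBipartite) :
    S.card ≤ bipNum G := by
  apply le_csSup
  · refine ⟨Fintype.card V, ?_⟩
    rintro m ⟨T, _, rfl⟩
    exact Finset.card_le_univ T
  · exact ⟨S, hS, rfl⟩

lemma exists_bipNum [Fintype V] : ∃ S : Finset V, (G.induce (S : Set V)).IsBipartite ∧
    S.card = bipNum G := by
  have : bipNum G ∈ {k : ℕ | ∃ S : Finset V, (G.induce (S : Set V)).IsBipartite ∧ S.card = k} := by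
    apply Nat.sSup_mem
    · refine ⟨0, ∅, ?_, rfl⟩
      have : IsEmpty ((∅ : Finset V) : Set V) := by simp
      exact ⟨Coloring.mk (fun v => isEmptyElim v) (fun {v} => isEmptyElim v)⟩
    · refine ⟨Fintype.card V, ?_⟩
      rintro m ⟨T, _, rfl⟩
      exact Finset.card_le_univ T
  exact this

lemma locInd_le (v : V) (k : ℕ) (h : ∀ T : Finset V, (∀ u ∈ T, G.Adj v u) →
    (∀ u ∈ T, ∀ w ∈ T, u ≠ w → ¬ G.Adj u w) → T.card ≤ k) : locInd G v ≤ k := by
  classical
  unfold locInd
  obtain ⟨t, ht⟩ := (G.induce (G.neighborSet v)).exists_isNIndepSet_indepNum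
  rw [← ht.card_eq]
  have h1 := h (t.map (Function.Embedding.subtype _)) (by
    intro u hu
    rw [Finset.mem_map] at hu
    obtain ⟨u', _, rfl⟩ := hu
    exact u'.2) (by
    intro u hu w hw huw hadj
    rw [Finset.mem_map] at hu hw
    obtain ⟨u', hu', rfl⟩ := hu
    obtain ⟨w', hw', rfl⟩ := hw
    have hne : u' ≠ w' := fun h => huw (by rw [h])
    exact ht.isIndepSet hu' hw' hne hadj)
  rw [Finset.card_map] at h1
  exact h1

lemma one_le_locInd [Finite V] (v w : V) (h : G.Adj v w) : 1 ≤ locInd G v := by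
  unfold locInd
  have : (G.induce (G.neighborSet v)).IsIndepSet (({⟨w, h⟩} : Finset (G.neighborSet v)) :
      Set (G.neighborSet v)) := by
    simp
  exact this.card_le_indepNum

/-- The trivial lower bound `b ≤ 2 f`. -/
lemma bip_le_two_forest [Fintype V] : bipNum G ≤ 2 * forestNum G := by
  classical
  obtain ⟨S, ⟨c⟩, hS⟩ := exists_bipNum (G := G)
  rw [← hS]
  set S₀ : Fin 2 → Finset V := fun i => S.filter (fun v => ∃ h : v ∈ S, c ⟨v, h⟩ = i) with hS₀
  have hac : ∀ i, (G.induce (S₀ i : Set V)).IsAcyclic := by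
    intro i
    have : G.induce (S₀ i : Set V) = ⊥ := by
      ext ⟨x, hx⟩ ⟨y, hy⟩
      simp only [comap_adj, Function.Embedding.subtype_apply, bot_adj, iff_false]
      intro hadj
      rw [mem_coe, hS₀, mem_filter] at hx hy
      obtain ⟨_, h1, h2⟩ := hx
      obtain ⟨_, h3, h4⟩ := hy
      have : (G.induce (S : Set V)).Adj ⟨x, h1⟩ ⟨y, h3⟩ := hadj
      exact c.valid this (h2.trans h4.symm)
    rw [this]
    exact isAcyclic_bot
  have hsub : S ⊆ S₀ 0 ∪ S₀ 1 := by
    intro v hv
    rw [mem_union, hS₀]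
    simp only [mem_filter]
    have h2 : c ⟨v, hv⟩ = 0 ∨ c ⟨v, hv⟩ = 1 := by
      generalize c ⟨v, hv⟩ = z
      fin_cases z <;> simp
    rcases h2 with h | h
    · left; exact ⟨hv, hv, h⟩
    · right; exact ⟨hv, hv, h⟩
  have h1 := Finset.card_le_card hsub
  have h2 := Finset.card_union_le (S₀ 0) (S₀ 1)
  have h3 := le_forestNum (S₀ 0) (hac 0)
  have h4 := le_forestNum (S₀ 1) (hac 1)
  omega

lemma one_le_avg [Fintype V] (hc : G.Connected) (h2 : 2 ≤ Fintype.card V) : 1 ≤ avgLocInd G := by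
  unfold avgLocInd
  have hpos : (0 : ℝ) < Fintype.card V := by
    have : 0 < Fintype.card V := by omega
    exact_mod_cast this
  rw [le_div_iff₀ hpos, one_mul]
  have h1 : ∀ v ∈ (univ : Finset V), (1 : ℝ) ≤ (locInd G v : ℝ) := by
    intro v _
    have hnt : Nontrivial V := Fintype.one_lt_card_iff_nontrivial.1 (by omega)
    obtain ⟨w, hw⟩ := hc.preconnected.exists_adj_of_nontrivial v
    exact_mod_cast one_le_locInd v w hw
  have := Finset.sum_le_sum h1
  rw [Finset.sum_const, Finset.card_univ, nsmul_eq_mul, mul_one] at this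
  exact this

/-- `K_{M+1,M+1}` and `K_{N+1}` joined by one edge. -/
def CG (M N : ℕ) : SimpleGraph ((Bool × Fin (M + 1)) ⊕ Fin (N + 1)) where
  Adj
    | Sum.inl p, Sum.inl q => p.1 ≠ q.1
    | Sum.inl p, Sum.inr x => p = (false, 0) ∧ x = 0
    | Sum.inr x, Sum.inl p => p = (false, 0) ∧ x = 0
    | Sum.inr x, Sum.inr y => x ≠ y
  symm := ⟨by
    rintro (p | x) (q | y) h
    · exact Ne.symm h
    · exact h
    · exact h
    · exact Ne.symm h⟩
  loopless := ⟨by
    rintro (p | x) h
    · exact h rfl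
    · exact h rfl⟩

lemma CG_ll {M N : ℕ} {p q : Bool × Fin (M + 1)} :
    (CG M N).Adj (Sum.inl p) (Sum.inl q) ↔ p.1 ≠ q.1 := Iff.rfl

lemma CG_rr {M N : ℕ} {x y : Fin (N + 1)} :
    (CG M N).Adj (Sum.inr x) (Sum.inr y) ↔ x ≠ y := Iff.rfl

lemma CG_rl {M N : ℕ} {x : Fin (N + 1)} {p : Bool × Fin (M + 1)} :
    (CG M N).Adj (Sum.inr x) (Sum.inl p) ↔ p = (false, 0) ∧ x = 0 := Iff.rfl

lemma CG_lr {M N : ℕ} {x : Fin (N + 1)} {p : Bool × Fin (M + 1)} :
    (CG M N).Adj (Sum.inl p) (Sum.inr x) ↔ p = (false, 0) ∧ x = 0 := Iff.rfl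

lemma CG_connected (M N : ℕ) : (CG M N).Connected := by
  have hbase : ∀ v, (CG M N).Reachable (Sum.inl (false, 0)) v := by
    have h1 : ∀ j, (CG M N).Reachable (Sum.inl (false, 0)) (Sum.inl (true, j)) := fun j =>
      Adj.reachable (CG_ll.2 (by simp))
    have h3 : (CG M N).Reachable (Sum.inl (false, 0)) (Sum.inr 0) :=
      Adj.reachable (CG_lr.2 ⟨rfl, rfl⟩)
    rintro (⟨b, i⟩ | x)
    · cases b
      · exact (h1 0).trans (Adj.reachable (CG_ll.2 (by simp)))
      · exact h1 i
    · by_cases hx : x = 0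
      · rw [hx]; exact h3
      · exact h3.trans (Adj.reachable (CG_rr.2 (Ne.symm hx)))
  have : Nonempty ((Bool × Fin (M + 1)) ⊕ Fin (N + 1)) := ⟨Sum.inl (false, 0)⟩
  exact ⟨fun u v => (hbase u).symm.trans (hbase v)⟩

lemma CG_bip (M N : ℕ) : 2 * (M + 1) ≤ bipNum (CG M N) := by
  classical
  have h := le_bipNum (G := CG M N) ((univ : Finset (Bool × Fin (M + 1))).map
    Function.Embedding.inl) (by
    refine ⟨Coloring.mk (fun v => match v.1 with
      | Sum.inl p => if p.1 then 1 else 0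
      | Sum.inr _ => 0) ?_⟩
    rintro ⟨v, hv⟩ ⟨w, hw⟩ hadj
    rw [mem_coe, Finset.mem_map] at hv hw
    obtain ⟨p, _, rfl⟩ := hv
    obtain ⟨q, _, rfl⟩ := hw
    have h1 : p.1 ≠ q.1 := hadj
    show (if p.1 then (1 : Fin 2) else 0) ≠ (if q.1 then 1 else 0)
    revert h1
    cases p.1 <;> cases q.1 <;> simp)
  rw [Finset.card_map, Finset.card_univ, Fintype.card_prod, Fintype.card_bool,
    Fintype.card_fin] at h
  exact h

lemma CG_forest (M N : ℕ) : forestNum (CG M N) ≤ M + 4 := by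
  classical
  apply forestNum_le
  intro S hS
  -- right part
  set SR : Finset (Fin (N + 1)) := univ.filter (fun x => Sum.inr x ∈ S) with hSR
  set SL : Bool → Finset (Fin (M + 1)) := fun b => univ.filter (fun i => Sum.inl (b, i) ∈ S)
    with hSL
  have hcard : S.card ≤ SR.card + ((SL false).card + (SL true).card) := by
    have hsub : S ⊆ SR.image Sum.inr ∪ ((SL false).image (fun i => Sum.inl (false, i)) ∪
        (SL true).image (fun i => Sum.inl (true, i))) := by
      intro v hv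
      rcases v with ⟨b, i⟩ | x
      · cases b
        · simp only [mem_union, mem_image, hSL, mem_filter, mem_univ, true_and]
          right; left; exact ⟨i, hv, rfl⟩
        · simp only [mem_union, mem_image, hSL, mem_filter, mem_univ, true_and]
          right; right; exact ⟨i, hv, rfl⟩
      · simp only [mem_union, mem_image, hSR, mem_filter, mem_univ, true_and]
        left; exact ⟨x, hv, rfl⟩
    refine (Finset.card_le_card hsub).trans ((Finset.card_union_le _ _).trans ?_)
    refine Nat.add_le_add Finset.card_image_le ((Finset.card_union_le _ _).trans ?_)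
    exact Nat.add_le_add Finset.card_image_le Finset.card_image_le
  have hR : SR.card ≤ 2 := by
    by_contra hcon
    push Not at hcon
    obtain ⟨x, y, z, hx, hy, hz, hxy, hxz, hyz⟩ := Finset.two_lt_card_iff.1 hcon
    simp only [hSR, mem_filter, mem_univ, true_and] at hx hy hz
    exact no_tri hS (a := ⟨_, hx⟩) (b := ⟨_, hy⟩) (c := ⟨_, hz⟩) ((CG_rr (M := M)).2 hxy)
      ((CG_rr (M := M)).2 hyz) ((CG_rr (M := M)).2 hxz.symm)
  have hL : ∀ b, (SL b).card ≤ M + 1 := by
    intro b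
    have := Finset.card_le_univ (SL b)
    rwa [Fintype.card_fin] at this
  have hLL : (SL false).card ≤ 1 ∨ (SL true).card ≤ 1 := by
    by_contra hcon
    push Not at hcon
    obtain ⟨h1, h2⟩ := hcon
    obtain ⟨i, j, hi, hj, hij⟩ := Finset.one_lt_card_iff.1 h1
    obtain ⟨k, l, hk, hl, hkl⟩ := Finset.one_lt_card_iff.1 h2
    simp only [hSL, mem_filter, mem_univ, true_and] at hi hj hk hl
    apply no_c4 hS (a := ⟨_, hi⟩) (b := ⟨_, hk⟩) (c := ⟨_, hj⟩) (d := ⟨_, hl⟩)
      ((CG_ll (N := N)).2 (by simp)) ((CG_ll (N := N)).2 (by simp))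
      ((CG_ll (N := N)).2 (by simp)) ((CG_ll (N := N)).2 (by simp))
    · intro h
      apply hij
      simpa using h
    · intro h
      apply hkl
      simpa using h
  have h1 := hL false
  have h2 := hL true
  omega

lemma CG_loc_left (M N : ℕ) (p : Bool × Fin (M + 1)) :
    locInd (CG M N) (Sum.inl p) ≤ M + 2 := by
  classical
  apply locInd_le
  intro T hT _
  have hsub : T ⊆ insert (Sum.inr 0) ((univ : Finset (Fin (M + 1))).image
      (fun i => Sum.inl (!p.1, i))) := by
    intro v hv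
    have h := hT v hv
    rcases v with ⟨b, i⟩ | x
    · rw [CG_ll] at h
      rw [mem_insert, mem_image]
      right
      refine ⟨i, mem_univ _, ?_⟩
      have : b = !p.1 := by
        revert h
        simp only
        cases b <;> cases p.1 <;> simp
      rw [this]
    · rw [CG_lr] at h
      rw [h.2]
      exact mem_insert_self _ _
  refine (Finset.card_le_card hsub).trans ((Finset.card_insert_le _ _).trans ?_)
  have := Finset.card_image_le (s := (univ : Finset (Fin (M + 1))))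
    (f := fun i => (Sum.inl (!p.1, i) : (Bool × Fin (M + 1)) ⊕ Fin (N + 1)))
  rw [Finset.card_univ, Fintype.card_fin] at this
  omega

lemma CG_loc_right (M N : ℕ) (x : Fin (N + 1)) :
    locInd (CG M N) (Sum.inr x) ≤ 1 + (if x = 0 then 1 else 0) := by
  classical
  apply locInd_le
  intro T hT hind
  have hR : (T.filter (fun v => ∃ y, v = Sum.inr y)).card ≤ 1 := by
    rw [Finset.card_le_one]
    intro a ha b hb
    rw [mem_filter] at ha hb
    obtain ⟨ha, y, rfl⟩ := ha
    obtain ⟨hb, z, rfl⟩ := hb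
    by_contra hne
    exact hind _ ha _ hb hne (CG_rr.2 (fun h => hne (by rw [h])))
  have hL : (T.filter (fun v => ¬ ∃ y, v = Sum.inr y)).card ≤ (if x = 0 then 1 else 0) := by
    by_cases hx : x = 0
    · rw [if_pos hx, Finset.card_le_one]
      intro a ha b hb
      rw [mem_filter] at ha hb
      rcases a with p | y
      · rcases b with q | z
        · have h1 := CG_rl.1 (hT _ ha.1)
          have h2 := CG_rl.1 (hT _ hb.1)
          rw [h1.1, h2.1]
        · exact absurd ⟨z, rfl⟩ hb.2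
      · exact absurd ⟨y, rfl⟩ ha.2
    · rw [if_neg hx]
      rw [Nat.le_zero, Finset.card_eq_zero, Finset.eq_empty_iff_forall_notMem]
      intro a ha
      rw [mem_filter] at ha
      rcases a with p | y
      · exact hx (CG_rl.1 (hT _ ha.1)).2
      · exact ha.2 ⟨y, rfl⟩
  have := Finset.card_filter_add_card_filter_not (s := T) (fun v => ∃ y, v = Sum.inr y)
  omega

lemma CG_sum (M N : ℕ) : ∑ v, (locInd (CG M N) v : ℝ) ≤ 2 * (M + 1) * (M + 2) + N + 2 := by
  rw [Fintype.sum_sum_type]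
  have h1 : ∑ p : Bool × Fin (M + 1), (locInd (CG M N) (Sum.inl p) : ℝ) ≤
      ∑ _p : Bool × Fin (M + 1), ((M : ℝ) + 2) := by
    apply Finset.sum_le_sum
    intro p _
    exact_mod_cast CG_loc_left M N p
  have h2 : ∑ x : Fin (N + 1), (locInd (CG M N) (Sum.inr x) : ℝ) ≤
      ∑ x : Fin (N + 1), (1 + (if x = 0 then 1 else 0) : ℝ) := by
    apply Finset.sum_le_sum
    intro x _
    exact_mod_cast CG_loc_right M N x
  rw [Finset.sum_const, Finset.card_univ, Fintype.card_prod, Fintype.card_bool,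
    Fintype.card_fin, nsmul_eq_mul] at h1
  rw [Finset.sum_add_distrib, Finset.sum_const, Finset.card_univ, Fintype.card_fin,
    Finset.sum_ite_eq' Finset.univ (0 : Fin (N + 1)) (fun _ => (1 : ℝ)), if_pos (mem_univ _),
    nsmul_eq_mul] at h2
  push_cast at h1 h2
  linarith

lemma CG_avg (M N : ℕ) :
    avgLocInd (CG M N) ≤ 1 + 2 * ((M : ℝ) + 1) * (M + 2) / (N + 1) := by
  unfold avgLocInd
  have hc : (Fintype.card ((Bool × Fin (M + 1)) ⊕ Fin (N + 1)) : ℝ) = 2 * (M + 1) + (N + 1) := by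
    rw [Fintype.card_sum, Fintype.card_prod, Fintype.card_bool, Fintype.card_fin,
      Fintype.card_fin]
    push_cast
    ring
  rw [hc, div_le_iff₀ (by positivity)]
  refine (CG_sum M N).trans ?_
  have h1 : (0 : ℝ) < (N : ℝ) + 1 := by positivity
  have h2 : (1 + 2 * ((M : ℝ) + 1) * (M + 2) / (N + 1)) * (2 * (M + 1) + (N + 1)) =
      2 * (M + 1) + (N + 1) + 2 * ((M : ℝ) + 1) * (M + 2) +
        2 * ((M : ℝ) + 1) * (M + 2) / (N + 1) * (2 * (M + 1)) := by
    field_simp
    ring
  rw [h2]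
  have h3 : 0 ≤ 2 * ((M : ℝ) + 1) * (M + 2) / (N + 1) * (2 * (M + 1)) := by positivity
  have h4 : (0 : ℝ) ≤ M := by positivity
  linarith

/-- The family with `f * average → b / 2`. -/
theorem exists_ratio (ε : ℝ) (hε : 0 < ε) : ∃ M N : ℕ,
    (forestNum (CG M N) : ℝ) * avgLocInd (CG M N) < (1 / 2 + ε) * bipNum (CG M N) := by
  obtain ⟨M, hM⟩ := exists_nat_gt (3 / ε)
  rw [div_lt_iff₀ hε] at hM
  obtain ⟨N, hN⟩ := exists_nat_gt (((M : ℝ) + 4) * (2 * ((M : ℝ) + 1) * (M + 2)))
  refine ⟨M, N, ?_⟩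
  have hM0 : (0 : ℝ) ≤ M := by positivity
  have hf : (forestNum (CG M N) : ℝ) ≤ M + 4 := by exact_mod_cast CG_forest M N
  have hb : (2 : ℝ) * (M + 1) ≤ bipNum (CG M N) := by exact_mod_cast CG_bip M N
  have ha := CG_avg M N
  have hN1 : (0 : ℝ) < (N : ℝ) + 1 := by positivity
  have hK : 2 * ((M : ℝ) + 1) * (M + 2) / (N + 1) * (M + 4) ≤ 1 := by
    rw [div_mul_eq_mul_div, div_le_one hN1]
    nlinarith
  have ha0 : 0 ≤ avgLocInd (CG M N) := by
    unfold avgLocInd
    positivity
  have h1 : (forestNum (CG M N) : ℝ) * avgLocInd (CG M N) ≤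
      (M + 4) * (1 + 2 * ((M : ℝ) + 1) * (M + 2) / (N + 1)) :=
    mul_le_mul hf ha ha0 (by positivity)
  have h2 : ((M : ℝ) + 4) * (1 + 2 * ((M : ℝ) + 1) * (M + 2) / (N + 1)) ≤ M + 5 := by
    have : ((M : ℝ) + 4) * (1 + 2 * ((M : ℝ) + 1) * (M + 2) / (N + 1)) =
        (M + 4) + 2 * ((M : ℝ) + 1) * (M + 2) / (N + 1) * (M + 4) := by ring
    linarith
  have h3 : (1 / 2 + ε) * (2 * ((M : ℝ) + 1)) ≤ (1 / 2 + ε) * bipNum (CG M N) :=
    mul_le_mul_of_nonneg_left hb (by positivity)
  have h4 : (M : ℝ) + 5 < (1 / 2 + ε) * (2 * ((M : ℝ) + 1)) := by nlinarith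
  linarith

end Q117.FB
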